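import Mathlib
import Pool.Agent.Helper850.TC.Defs

/-!
# Strong edge colourings: subgraphs, compactness, and the cubic closure of a subcubic graph
-/

set_option autoImplicit false

namespace Pool.Agent.Y366.TC

open SimpleGraph Pool.Agent.Helper850.TC

universe u v

/-- Strong edge colourings restrict to subgraphs. -/
theorem mono {W W' : Type*} {H : SimpleGraph W} {H' : SimpleGraph W'} {n : ℕ} (φ : H →g H')
    (hφ : Function.Injective φ) (h : StrongColorable H' n) : StrongColorable H n := by
  obtain ⟨c, hc⟩ := h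
  have hm : ∀ e : H.edgeSet, Sym2.map φ e.1 ∈ H'.edgeSet := by
    rintro ⟨e, he⟩
    induction e using Sym2.ind with
    | _ x y =>
      simp only [Sym2.map_mk, mem_edgeSet] at he ⊢
      exact φ.map_adj he
  have hinj : Function.Injective (Sym2.map φ) := Sym2.map.injective hφ
  refine ⟨fun e => c ⟨_, hm e⟩, ?_⟩
  intro e f hef hconf
  apply hc
  · intro h
    exact hef (Subtype.ext (hinj (congrArg Subtype.val h)))
  · rcases hconf with ⟨x, hx, hy⟩ | ⟨g, hg, hge, hgf, ⟨x, hx, hxg⟩, ⟨y, hyg, hy⟩⟩
    · exact Or.inl ⟨φ x, Sym2.mem_map.2 ⟨x, hx, rfl⟩, Sym2.mem_map.2 ⟨x, hy, rfl⟩⟩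
    · refine Or.inr ⟨Sym2.map φ g, hm ⟨g, hg⟩, fun h => hge (hinj h), fun h => hgf (hinj h),
        ⟨φ x, Sym2.mem_map.2 ⟨x, hx, rfl⟩, Sym2.mem_map.2 ⟨x, hxg, rfl⟩⟩,
        ⟨φ y, Sym2.mem_map.2 ⟨y, hyg, rfl⟩, Sym2.mem_map.2 ⟨y, hy, rfl⟩⟩⟩

/-- The graph of the conflicts between the edges of `H`. -/
def conflictGraph {W : Type*} (H : SimpleGraph W) : SimpleGraph H.edgeSet where
  Adj e f := e ≠ f ∧ EdgeConflict H e f
  symm := ⟨by
    rintro e f ⟨h1, h2⟩
    refine ⟨h1.symm, ?_⟩
    rcases h2 with ⟨x, hx, hy⟩ | ⟨g, hg, hge, hgf, ⟨x, hx, hxg⟩, ⟨y, hyg, hy⟩⟩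
    · exact Or.inl ⟨x, hy, hx⟩
    · exact Or.inr ⟨g, hg, hgf, hge, ⟨y, hy, hyg⟩, ⟨x, hxg, hx⟩⟩⟩
  loopless := ⟨fun e h => h.1 rfl⟩

/-- Compactness: if every finite set of vertices of `H` lies in the range of an embedding of a graph
with a strong edge colouring with `n` colours, then `H` has such a colouring. -/
theorem compactness {W : Type u} {H : SimpleGraph W} {n : ℕ}
    (h : ∀ S : Set W, S.Finite → ∃ (W' : Type u) (H' : SimpleGraph W') (φ : H' ↪g H),
      S ⊆ Set.range φ ∧ StrongColorable H' n) : StrongColorable H n := by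
  classical
  have key : Nonempty (conflictGraph H →g (⊤ : SimpleGraph (Fin n))) := by
    apply nonempty_hom_of_forall_finite_subgraph_hom
    intro L hL
    let S : Set W := {x | ∃ e : H.edgeSet, e ∈ L.verts ∧ x ∈ e.1}
    have hS : S.Finite := by
      have : S = ⋃ e ∈ L.verts, {x | x ∈ (e : Sym2 W)} := by
        ext x
        simp only [S, Set.mem_iUnion, Set.mem_ofPred_eq, exists_prop]
      rw [this]
      apply hL.biUnion
      rintro ⟨e, he⟩ -
      induction e using Sym2.ind with
      | _ x y =>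
        apply Set.Finite.subset (Set.toFinite {x, y})
        intro z hz
        simpa using hz
    have hc0 := h S hS
    let W' := hc0.choose
    let H' : SimpleGraph W' := hc0.choose_spec.choose
    let φ : H' ↪g H := hc0.choose_spec.choose_spec.choose
    have hr : S ⊆ Set.range φ := hc0.choose_spec.choose_spec.choose_spec.1
    have hcol : StrongColorable H' n := hc0.choose_spec.choose_spec.choose_spec.2
    let c : H'.edgeSet → Fin n := hcol.choose
    have hc : ∀ e f : H'.edgeSet, e ≠ f → EdgeConflict H' e f → c e ≠ c f := hcol.choose_spec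
    have hφ : Function.Injective φ := φ.injective
    have hinj : Function.Injective (Sym2.map φ) := Sym2.map.injective hφ
    have hpre : ∀ e : L.verts, ∃ e' : H'.edgeSet, Sym2.map φ e'.1 = e.1.1 := by
      rintro ⟨⟨e, he⟩, heL⟩
      induction e using Sym2.ind with
      | _ x y =>
        obtain ⟨x', hx'⟩ := hr (show x ∈ S from ⟨⟨_, he⟩, heL, Sym2.mem_mk_left _ _⟩)
        obtain ⟨y', hy'⟩ := hr (show y ∈ S from ⟨⟨_, he⟩, heL, Sym2.mem_mk_right _ _⟩)
        refine ⟨⟨s(x', y'), ?_⟩, ?_⟩
        · rw [mem_edgeSet] at he ⊢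
          rw [← hx', ← hy'] at he
          exact φ.map_adj_iff.1 he
        · simp [hx', hy']
    let p : L.verts → H'.edgeSet := fun e => (hpre e).choose
    have hp : ∀ e : L.verts, Sym2.map φ (p e).1 = e.1.1 := fun e => (hpre e).choose_spec
    have hback : ∀ (e : L.verts) (x : W), x ∈ e.1.1 → ∃ x', x' ∈ (p e).1 ∧ φ x' = x := by
      intro e x hx
      rw [← hp e, Sym2.mem_map] at hx
      exact hx
    refine ⟨fun e => c (p e), ?_⟩
    intro e f hef
    have hadj : (conflictGraph H).Adj e.1 f.1 := L.adj_sub hef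
    obtain ⟨hne, hconf⟩ := hadj
    rw [top_adj]
    apply hc
    · intro h
      apply hne
      apply Subtype.ext
      rw [← hp e, ← hp f, h]
    · have hshare : ∀ x, x ∈ e.1.1 → x ∈ f.1.1 → EdgeConflict H' (p e).1 (p f).1 := by
        intro x hx hy
        obtain ⟨x', hx', h1⟩ := hback e x hx
        obtain ⟨y', hy', h2⟩ := hback f x hy
        have : x' = y' := hφ (h1.trans h2.symm)
        subst this
        exact Or.inl ⟨x', hx', hy'⟩
      rcases hconf with ⟨x, hx, hy⟩ | ⟨g, hg, hge, hgf, ⟨x, hx, hxg⟩, ⟨y, hyg, hy⟩⟩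
      · exact hshare x hx hy
      · by_cases hxy : x = y
        · subst hxy
          exact hshare x hx hy
        · have hgxy : g = s(x, y) := (Sym2.mem_and_mem_iff hxy).1 ⟨hxg, hyg⟩
          obtain ⟨x', hx', h1⟩ := hback e x hx
          obtain ⟨y', hy', h2⟩ := hback f y hy
          have hmap : Sym2.map φ s(x', y') = g := by
            rw [hgxy, Sym2.map_mk, h1, h2]
          refine Or.inr ⟨s(x', y'), ?_, ?_, ?_, ⟨x', hx', Sym2.mem_mk_left _ _⟩,
            ⟨y', Sym2.mem_mk_right _ _, hy'⟩⟩
          · rw [hgxy, mem_edgeSet, ← h1, ← h2] at hg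
            exact φ.map_adj_iff.1 hg
          · intro h
            apply hge
            rw [← hmap, h, hp e]
          · intro h
            apply hgf
            rw [← hmap, h, hp f]
  obtain ⟨F⟩ := key
  exact ⟨fun e => F e, fun e f hef hconf => F.map_adj ⟨hef, hconf⟩⟩

/-- The map of truncations induced by an injective homomorphism. -/
def truncMap {V V' : Type*} {G : SimpleGraph V} {G' : SimpleGraph V'} (ψ : G →g G')
    (hψ : Function.Injective ψ) : truncation G →g truncation G' where
  toFun d := ⟨(ψ d.fst, ψ d.snd), ψ.map_adj d.adj⟩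
  map_rel' := by
    intro d e h
    rcases h with ⟨h1, h2⟩ | h
    · left
      refine ⟨congrArg ψ h1, ?_⟩
      intro h3
      apply h2
      have h4 : (ψ d.fst, ψ d.snd) = (ψ e.fst, ψ e.snd) := congrArg Dart.toProd h3
      have h5 : ψ d.snd = ψ e.snd := congrArg Prod.snd h4
      exact Dart.ext _ _ (Prod.ext h1 (hψ h5))
    · right
      subst h
      rfl

theorem truncMap_injective {V V' : Type*} {G : SimpleGraph V} {G' : SimpleGraph V'} (ψ : G →g G')
    (hψ : Function.Injective ψ) : Function.Injective (truncMap ψ hψ) := by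
  intro d e h3
  have h4 : (ψ d.fst, ψ d.snd) = (ψ e.fst, ψ e.snd) := congrArg Dart.toProd h3
  exact Dart.ext _ _ (Prod.ext (hψ (congrArg Prod.fst h4)) (hψ (congrArg Prod.snd h4)))

/-- A graph which contains `G` has a truncation which contains the truncation of `G`. -/
theorem trunc_mono {V V' : Type*} {G : SimpleGraph V} {G' : SimpleGraph V'} {n : ℕ} (ψ : G →g G')
    (hψ : Function.Injective ψ) (h : StrongColorable (truncation G') n) :
    StrongColorable (truncation G) n :=
  mono (truncMap ψ hψ) (truncMap_injective ψ hψ) h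

/-! ### Lower bound -/

/-- `k` darts at a vertex give `(k+1).choose 2` edges of the truncation any two of which are in
conflict. -/
theorem lower {V : Type*} {G : SimpleGraph V} {n k : ℕ} (h : StrongColorable (truncation G) n)
    (v : V) (d : Fin k → G.Dart) (hd : Function.Injective d) (hv : ∀ i, (d i).fst = v) :
    (k + 1).choose 2 ≤ n := by
  classical
  obtain ⟨c, hc⟩ := h
  have hconf : ∀ (e f : (truncation G).edgeSet) (x y : G.Dart), x ∈ e.1 → y ∈ f.1 → x.fst = v →
      y.fst = v → e ≠ f → c e ≠ c f := by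
    intro e f x y hx hy hxv hyv hef
    apply hc e f hef
    by_cases hxy : x = y
    · subst hxy; exact Or.inl ⟨x, hx, hy⟩
    · have hg : s(x, y) ∈ (truncation G).edgeSet := Or.inl ⟨hxv.trans hyv.symm, hxy⟩
      by_cases h1 : s(x, y) = e.1
      · left; exact ⟨y, by rw [← h1]; exact Sym2.mem_mk_right _ _, hy⟩
      · by_cases h2 : s(x, y) = f.1
        · left; exact ⟨x, hx, by rw [← h2]; exact Sym2.mem_mk_left _ _⟩
        · right
          exact ⟨s(x, y), hg, h1, h2, ⟨x, hx, Sym2.mem_mk_left _ _⟩, ⟨y, Sym2.mem_mk_right _ _, hy⟩⟩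
  have hsv : ∀ i, (d i).symm.fst ≠ v := by
    intro i h
    have h1 : (d i).snd = v := h
    exact (d i).adj.ne ((hv i).trans h1.symm)
  let F0 : Fin k → Fin k → Sym2 G.Dart := fun i j =>
    if i = j then s(d i, (d i).symm) else s(d i, d j)
  have hF0 : ∀ i j, F0 i j = F0 j i := by
    intro i j
    by_cases hij : i = j
    · rw [hij]
    · simp only [F0, if_neg hij, if_neg (Ne.symm hij)]
      exact Sym2.eq_swap
  let F : Sym2 (Fin k) → Sym2 G.Dart := Sym2.lift ⟨F0, hF0⟩
  have hFmk : ∀ i j, F s(i, j) = F0 i j := fun i j => rfl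
  have hmem : ∀ z, F z ∈ (truncation G).edgeSet ∧ ∃ x ∈ F z, x.fst = v := by
    intro z
    induction z using Sym2.ind with
    | _ i j =>
      rw [hFmk]
      by_cases hij : i = j
      · simp only [F0, if_pos hij]
        exact ⟨Or.inr rfl, d i, Sym2.mem_mk_left _ _, hv i⟩
      · simp only [F0, if_neg hij]
        exact ⟨Or.inl ⟨(hv i).trans (hv j).symm, fun h => hij (hd h)⟩, d i,
          Sym2.mem_mk_left _ _, hv i⟩
  have hinj : Function.Injective F := by
    intro z w
    induction z using Sym2.ind with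
    | _ i j =>
    induction w using Sym2.ind with
    | _ i' j' =>
      rw [hFmk, hFmk]
      intro h
      have hx : ∀ a b : Fin k, d a ≠ (d b).symm := fun a b h => hsv b (by rw [← h]; exact hv a)
      by_cases hij : i = j <;> by_cases hij' : i' = j'
      · simp only [F0, if_pos hij, if_pos hij'] at h
        rw [Sym2.eq_iff] at h
        rcases h with ⟨h, _⟩ | ⟨h, _⟩
        · have := hd h
          subst this; subst hij; subst hij'; rfl
        · exact absurd h (hx _ _)
      · simp only [F0, if_pos hij, if_neg hij'] at h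
        rw [Sym2.eq_iff] at h
        rcases h with ⟨_, h⟩ | ⟨_, h⟩
        · exact absurd h.symm (hx _ _)
        · exact absurd h.symm (hx _ _)
      · simp only [F0, if_neg hij, if_pos hij'] at h
        rw [Sym2.eq_iff] at h
        rcases h with ⟨_, h⟩ | ⟨h, _⟩
        · exact absurd h (hx _ _)
        · exact absurd h (hx _ _)
      · simp only [F0, if_neg hij, if_neg hij'] at h
        rw [Sym2.eq_iff] at h
        rcases h with ⟨h1, h2⟩ | ⟨h1, h2⟩
        · rw [hd h1, hd h2]
        · rw [hd h1, hd h2]; exact Sym2.eq_swap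
  have hci : Function.Injective (fun z => c ⟨F z, (hmem z).1⟩) := by
    intro z w hzw
    by_contra hne
    obtain ⟨x, hx, hxv⟩ := (hmem z).2
    obtain ⟨y, hy, hyv⟩ := (hmem w).2
    exact hconf ⟨F z, (hmem z).1⟩ ⟨F w, (hmem w).1⟩ x y hx hy hxv hyv
      (fun h => hne (hinj (congrArg Subtype.val h))) hzw
  have hcard := Fintype.card_le_of_injective _ hci
  rw [Sym2.card, Fintype.card_fin, Fintype.card_fin] at hcard
  exact hcard

/-- darts at a vertex with at least `k` neighbours -/
theorem exists_darts {V : Type*} {G : SimpleGraph V} {k : ℕ} (v : V)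
    (h : (k : ℕ∞) ≤ (G.neighborSet v).encard) :
    ∃ d : Fin k → G.Dart, Function.Injective d ∧ ∀ i, (d i).fst = v := by
  classical
  obtain ⟨T, hT, hTk⟩ := Set.exists_subset_encard_eq h
  have hfin : T.Finite := Set.finite_of_encard_eq_coe hTk
  obtain ⟨T', rfl⟩ := hfin.exists_finset_coe
  rw [Set.encard_coe_eq_coe_finsetCard] at hTk
  have hk : T'.card = k := by exact_mod_cast hTk
  let E := T'.equivFinOfCardEq hk
  refine ⟨fun i => ⟨(v, (E.symm i).1), hT (E.symm i).2⟩, ?_, fun i => rfl⟩
  intro i j hij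
  have h1 : (v, (E.symm i).1) = (v, (E.symm j).1) := congrArg Dart.toProd hij
  have h2 : (E.symm i).1 = (E.symm j).1 := congrArg Prod.snd h1
  exact E.symm.injective (Subtype.ext h2)

/-! ### The cubic closure of a finite subcubic graph -/

section closure

variable {U : Type*} [Fintype U] [DecidableEq U] (H : SimpleGraph U) [DecidableRel H.Adj]

/-- change the `i`-th coordinate -/
def flipAt (x : Fin 3 → Bool) (i : Fin 3) : Fin 3 → Bool := Function.update x i (!x i)

theorem flipAt_flipAt (x : Fin 3 → Bool) (i : Fin 3) : flipAt (flipAt x i) i = x := by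
  unfold flipAt
  simp

theorem flipAt_ne (x : Fin 3 → Bool) (i : Fin 3) : flipAt x i ≠ x := by
  intro h
  have := congrFun h i
  simp [flipAt] at this

theorem flipAt_inj (x : Fin 3 → Bool) : Function.Injective (flipAt x) := by
  intro i j h
  by_contra hij
  have := congrFun h i
  simp [flipAt, Function.update_of_ne hij] at this

/-- Eight copies of `H`, joined along the edges of the cube so that all degrees become three. -/
def closure : SimpleGraph (U × (Fin 3 → Bool)) where
  Adj a b := (H.Adj a.1 b.1 ∧ a.2 = b.2) ∨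
    (a.1 = b.1 ∧ ∃ i : Fin 3, i.val < 3 - H.degree a.1 ∧ b.2 = flipAt a.2 i)
  symm := ⟨by
    rintro ⟨a, x⟩ ⟨b, y⟩ (⟨h1, h2⟩ | ⟨h1, i, hi, h2⟩)
    · exact Or.inl ⟨h1.symm, h2.symm⟩
    · right
      simp only at h1 h2 hi
      subst h1
      subst h2
      exact ⟨rfl, i, hi, (flipAt_flipAt x i).symm⟩⟩
  loopless := ⟨by
    rintro ⟨a, x⟩ (⟨h1, h2⟩ | ⟨h1, i, hi, h2⟩)
    · exact h1.ne rfl
    · exact flipAt_ne x i h2.symm⟩

instance : DecidableRel (closure H).Adj := fun a b => by
  unfold closure
  infer_instance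

theorem closure_degree (hH : ∀ u, H.degree u ≤ 3) (a : U × (Fin 3 → Bool)) :
    (closure H).degree a = 3 := by
  obtain ⟨a, x⟩ := a
  have hset : (closure H).neighborFinset (a, x) =
      (H.neighborFinset a).image (fun v => (v, x)) ∪
        (Finset.univ.filter (fun i : Fin 3 => i.val < 3 - H.degree a)).image
          (fun i => (a, flipAt x i)) := by
    ext ⟨b, y⟩
    simp only [mem_neighborFinset, Finset.mem_union, Finset.mem_image, Finset.mem_filter,
      Finset.mem_univ, true_and, Prod.mk.injEq]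
    constructor
    · rintro (⟨h1, h2⟩ | ⟨h1, i, hi, h2⟩)
      · exact Or.inl ⟨b, h1, rfl, h2⟩
      · exact Or.inr ⟨i, hi, h1, h2.symm⟩
    · rintro (⟨v, h1, rfl, h2⟩ | ⟨i, hi, h1, h2⟩)
      · exact Or.inl ⟨h1, h2⟩
      · exact Or.inr ⟨h1, i, hi, h2.symm⟩
  rw [← card_neighborFinset_eq_degree, hset, Finset.card_union_of_disjoint,
    Finset.card_image_of_injective, Finset.card_image_of_injective, card_neighborFinset_eq_degree]
  · have h3 := hH a
    have : ∀ k : ℕ, k ≤ 3 → (Finset.univ.filter (fun i : Fin 3 => i.val < k)).card = k := by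
      intro k hk
      interval_cases k <;> decide
    rw [this _ (Nat.sub_le _ _)]
    omega
  · intro i j hij
    exact flipAt_inj x (congrArg Prod.snd hij)
  · intro i j hij
    exact congrArg Prod.fst hij
  · rw [Finset.disjoint_left]
    rintro ⟨b, y⟩ h1 h2
    simp only [Finset.mem_image, mem_neighborFinset, Prod.mk.injEq] at h1 h2
    obtain ⟨v, hv, rfl, -⟩ := h1
    obtain ⟨i, -, h, -⟩ := h2
    exact hv.ne h

/-- the copy of `H` with label `0` -/
def intoClosure : H →g closure H where
  toFun u := (u, fun _ => false)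
  map_rel' h := Or.inl ⟨h, rfl⟩

theorem intoClosure_injective : Function.Injective (intoClosure H) := by
  intro a b h
  exact congrArg Prod.fst h

end closure

end Pool.Agent.Y366.TC
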