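import Pool.Agent.Helper850.TC.Gr6
import Pool.Agent.Y366.TC.Gen

/-!
# Truncations of arbitrary graphs of maximum degree three
-/

set_option autoImplicit false

namespace Pool.Agent.Y366.TC

open SimpleGraph Pool.Agent.Helper850.TC

universe u

/-- Finite graphs of maximum degree at most three. -/
theorem finite_case {U : Type u} [Fintype U] [DecidableEq U] (H : SimpleGraph U)
    [DecidableRel H.Adj] (hH : ∀ u, H.degree u ≤ 3) : StrongColorable (truncation H) 6 :=
  trunc_mono (intoClosure H) (intoClosure_injective H)
    (upper_bound (G := closure H) (closure_degree H hH))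

/-- Arbitrary graphs of maximum degree at most three. -/
theorem upper {V : Type u} (G : SimpleGraph V) (hG : ∀ v, (G.neighborSet v).encard ≤ 3) :
    StrongColorable (truncation G) 6 := by
  classical
  apply compactness
  intro S hS
  let U : Set V := (fun d : G.Dart => d.fst) '' S ∪ (fun d : G.Dart => d.snd) '' S
  have hU : U.Finite := (hS.image _).union (hS.image _)
  haveI : Fintype U := hU.fintype
  let H : SimpleGraph U := G.induce U
  have hHdeg : ∀ w, H.degree w ≤ 3 := by
    intro w
    have h1 : ((H.neighborFinset w : Finset U) : Set U).encard ≤ (G.neighborSet w.1).encard := by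
      rw [coe_neighborFinset, ← Set.InjOn.encard_image
        (Subtype.val_injective.injOn : Set.InjOn (Subtype.val : U → V) (H.neighborSet w))]
      apply Set.encard_le_encard
      rintro _ ⟨y, hy, rfl⟩
      exact hy
    rw [Set.encard_coe_eq_coe_finsetCard] at h1
    have h2 := h1.trans (hG w.1)
    rw [← card_neighborFinset_eq_degree]
    exact_mod_cast h2
  let φ0 : H.Dart → G.Dart := fun d => ⟨(d.fst.1, d.snd.1), d.adj⟩
  have hφ0 : Function.Injective φ0 := by
    intro d e h
    have h4 : (d.fst.1, d.snd.1) = (e.fst.1, e.snd.1) := congrArg Dart.toProd h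
    exact Dart.ext _ _ (Prod.ext (Subtype.ext (congrArg Prod.fst h4))
      (Subtype.ext (congrArg Prod.snd h4)))
  let φ : truncation H ↪g truncation G :=
    { toFun := φ0
      inj' := hφ0
      map_rel_iff' := by
        intro d e
        constructor
        · rintro (⟨h1, h2⟩ | h)
          · exact Or.inl ⟨Subtype.ext h1, fun h => h2 (congrArg φ0 h)⟩
          · exact Or.inr (hφ0 h)
        · rintro (⟨h1, h2⟩ | h)
          · exact Or.inl ⟨congrArg Subtype.val h1, fun h => h2 (hφ0 h)⟩
          · exact Or.inr (congrArg φ0 h) }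
  refine ⟨H.Dart, truncation H, φ, ?_, finite_case H hHdeg⟩
  intro d hd
  exact ⟨⟨(⟨d.fst, Or.inl ⟨d, hd, rfl⟩⟩, ⟨d.snd, Or.inr ⟨d, hd, rfl⟩⟩), d.adj⟩, rfl⟩

/-- The truncation has a strong edge colouring with six colours if and only if all degrees are at
most three. -/
theorem six_iff {V : Type u} (G : SimpleGraph V) :
    StrongColorable (truncation G) 6 ↔ ∀ v, (G.neighborSet v).encard ≤ 3 := by
  refine ⟨?_, upper G⟩
  intro h v
  by_contra hcon
  push Not at hcon
  have h4 : ((4 : ℕ) : ℕ∞) ≤ (G.neighborSet v).encard := by
    have := Order.add_one_le_of_lt hcon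
    calc ((4 : ℕ) : ℕ∞) = 3 + 1 := by norm_num
      _ ≤ _ := this
  obtain ⟨d, hd, hv⟩ := exists_darts v h4
  have := lower h v d hd hv
  have h5 : (4 + 1).choose 2 = 10 := by decide
  omega

/-- The strong chromatic index is six if all degrees are at most three and some degree is three. -/
theorem index_six {V : Type u} (G : SimpleGraph V) (hG : ∀ v, (G.neighborSet v).encard ≤ 3)
    (h3 : ∃ v, (G.neighborSet v).encard = 3) : strongChromaticIndex (truncation G) = 6 := by
  obtain ⟨v, hv⟩ := h3
  apply le_antisymm
  · exact Nat.sInf_le (upper G hG)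
  · apply le_csInf ⟨6, upper G hG⟩
    intro n hn
    obtain ⟨d, hd, hdv⟩ := exists_darts (k := 3) v (by rw [hv]; norm_num)
    have := lower hn v d hd hdv
    have h5 : (3 + 1).choose 2 = 6 := by decide
    omega

end Pool.Agent.Y366.TC
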